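import Pool.Agent.Emt.GLR

/-!
# MP_64e98e_al: finite products of groups `GL₂(D)`

`D i` is a finite dimensional division algebra over `ℚ_p` with its multiplicative norm.  Every
injective object of the category of the locally admissible representations of `∏ GL₂(D i)` restricts
to an injective object of the category of the smooth representations of every compact subgroup.
-/

open Topology Set

namespace Pool.Agent.Results.MP_64e98e_al.GL2Products

open Emt

theorem result (p : ℕ) [Fact p.Prime] (C : Type) [Field C] [Finite C] [CharP C p] {ι : Type}
    [Fintype ι] (D : ι → Type) [∀ i, NormedDivisionRing (D i)]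
    [∀ i, NormedAlgebra ℚ_[p] (D i)] [∀ i, FiniteDimensional ℚ_[p] (D i)]
    [∀ i, IsUltrametricDist (D i)] (H : Subgroup (∀ i, GL2 (D i)))
    (hH : IsCompact (H : Set (∀ i, GL2 (D i)))) : RI C (∀ i, GL2 (D i)) H :=
  ri_pi_GL2 p C D hH

end Pool.Agent.Results.MP_64e98e_al.GL2Products
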