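import Pool.Agent.Ord1.GUr

/-!
# MP_64e98e_al: the ordinary part of the obstruction to the injectivity over `N₀` vanishes

`C` is a finite field of characteristic `p`, `G` a `p`-adic Lie group, `P = M N` a minimal parabolic
subgroup, `N₀` a compact open subgroup of `N`, `Nm` the opposite unipotent radical and `t` a central
element of `M` which contracts `N₀` (`Ord1.IsPar` lists the properties which are used).  Let `J` be an
injective object of the category of the locally admissible representations of `G`.

For pro-`p` groups `N₀` the restriction `J|N₀` is injective if and only if `H¹(N₀, J) = 0`.  The main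
theorem says that the Hecke operator of `t` is locally nilpotent on `H¹(N₀, J)`, in other
words `H¹Ord_P(J) = 0`, in every rank; so the injectivity over `N₀` is equivalent to the injectivity of
this Hecke operator on `H¹(N₀, J)`.  The same is proved for the compact open subgroups
`K = N₀ (K ∩ M) (K ∩ Nm)` (for example the pro-`p` Iwahori subgroups).

All the hypotheses are verified for `GL_n(D)`, `D` a finite dimensional division algebra over `ℚ_p`.

METHOD. Let `V` be admissible, `V → I` an embedding in an injective smooth representation, `Z = I / V`,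
`f : C[G/U] → Z` equivariant.  `Hom(C[G/U], V)` and `Ext¹(C[G/U], V)` are finite, so modulo liftable
maps `f T ^ k = f T ^ (k + m)` for the Hecke operator `T` of `t`, and `f T ^ k` factors through
`C[G/U] / (T ^ m - 1)`, the functions on `G/H₁` with `H₁ = Nm (U ∩ M) ⟨t ^ m⟩` (modules Ker0, Ker1;
here the ordinary part is used: `T` is invertible on it).  Inductively the same argument for
the generators `s` of the centre of `M` leads to the functions on `G/H` with `G/H`
compact (module Step), which are an admissible representation.  So `f T ^ k` is modulo liftable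
maps a map with admissible image, which gives the effaceability.
-/

open Topology Set

namespace Pool.Agent.Results.MP_64e98e_al.OrdinaryPart

open Emt Ord1

theorem result (p : ℕ) [Fact p.Prime] (C : Type) [Field C] [Finite C] [CharP C p] :
    (∀ (G : Type) [Group G] [TopologicalSpace G] [IsTopologicalGroup G]
      (N₀ Nm M : Subgroup G) (t : G), IsPadicLie p G → IsPar N₀ Nm M t →
      NoOrd p C N₀ t ∧
      (N₀ ≠ ⊥ → ∀ K : Subgroup G, Iwa N₀ Nm M K t → NoOrd p C K t)) ∧
    (∀ (n : ℕ) (D : Type) [NormedDivisionRing D] [NormedAlgebra ℚ_[p] D]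
      [FiniteDimensional ℚ_[p] D] [IsUltrametricDist D],
      (IsProP p (upN n D) ∧ NoOrd p C (upN n D) (tEl p n D)) ∧
      (2 ≤ n → ∀ (r : ℝ) (h0 : 0 < r) (h1 : r < 1),
        IsProP p (upN n D ⊔ kb n D r h0.le h1.le : Subgroup (GLn n D)) ∧
        NoOrd p C (upN n D ⊔ kb n D r h0.le h1.le) (tEl p n D))) :=
  ⟨fun _ _ _ _ _ _ _ _ hG hP => ⟨noOrd_N hG hP, fun h0 _ hI => noOrd_U hG hP h0 hI⟩,
    fun n D _ _ _ _ => ⟨⟨gl_proP p n D, noOrd_N (gl_padic p n D) (gl_isPar p n D)⟩,
      fun hn _ h0 h1 => ⟨gl_proP_sup p h0 h1,
        noOrd_U (gl_padic p n D) (gl_isPar p n D) (upN_ne_bot hn) (gl_iwa p h0 h1)⟩⟩⟩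

end Pool.Agent.Results.MP_64e98e_al.OrdinaryPart
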