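import Pool.Agent.Emt.Cent3
import Pool.Agent.Emt.Pi

/-!
# MP_64e98e_al: injectivity of restrictions for groups with factors of rank one

Let `C` be a finite field of characteristic `p`.  `Emt.RI C G H` says that every injective object
of the category of the locally admissible `C`-representations of `G` restricts to an injective object
of the category of the smooth `C`-representations of the subgroup `H` of `G`.

Main theorem `result`: this property for a `p`-adic Lie group `G` which receives a continuous open
homomorphism with image of finite index from a finite product of `p`-adic Lie groups, each of them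
of rank one type (or with a trivial subgroup `P i`, or such that the property is already known).

By Bruhat and Tits the group of the rational points of a simply connected simple algebraic group of
relative rank one over a `p`-adic field acts on a tree with an edge as fundamental domain, so it is of
rank one type with trivial `Λ`; the groups which are compact modulo their centre are of rank one type
with `K₁ = K₂ = G`.
-/

open Topology Set
open scoped Pointwise

namespace Pool.Agent.Results.MP_64e98e_al.RankOneFactors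

open Emt

/-- A topological group of rank one type: it has a finitely generated, torsion free, discrete
central subgroup `Λ`, and is the amalgamated product of two open subgroups `K₁` and `K₂`
which contain `Λ` and are compact modulo `Λ`. -/
def RankOne (G : Type) [Group G] [TopologicalSpace G] : Prop :=
  ∃ Λ K₁ K₂ : Subgroup G, Λ ≤ Subgroup.center G ∧ Λ.FG ∧
    (∀ z ∈ Λ, ∀ n : ℕ, n ≠ 0 → z ^ n = 1 → z = 1) ∧
    (∃ U : Subgroup G, IsOpen (U : Set G) ∧ U ⊓ Λ = ⊥) ∧ Λ ≤ K₁ ⊓ K₂ ∧
    IsOpen (K₁ : Set G) ∧ IsOpen (K₂ : Set G) ∧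
    (∃ X : Set G, IsCompact X ∧ (K₁ : Set G) ⊆ X * (Λ : Set G)) ∧
    (∃ X : Set G, IsCompact X ∧ (K₂ : Set G) ⊆ X * (Λ : Set G)) ∧ IsAmalgam K₁ K₂

/-- The restriction property for the trivial subgroup. -/
theorem ri_bot (C : Type) [Field C] (G : Type) [Group G] [TopologicalSpace G] :
    RI C G (⊥ : Subgroup G) := by
  intro V _ _ ρ hρ
  have h1 : ∀ h : (⊥ : Subgroup G), h = 1 := fun h => Subsingleton.elim _ _
  refine ⟨fun v => isOpen_discrete _, ?_⟩
  intro A B _ _ _ _ α β _ _ i _ hinj f _
  obtain ⟨j, hj⟩ := i.exists_leftInverse_of_injective (LinearMap.ker_eq_bot.2 hinj)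
  refine ⟨f ∘ₗ j, fun h b => ?_, fun a => ?_⟩
  · rw [h1 h, map_one, map_one]
    rfl
  · have h2 : j (i a) = a := LinearMap.congr_fun hj a
    rw [LinearMap.comp_apply, h2]

theorem ri_rankOne {p : ℕ} [Fact p.Prime] (C : Type) [Field C] [Finite C] [CharP C p]
    {G : Type} [Group G] [TopologicalSpace G] [IsTopologicalGroup G] (hG : IsPadicLie p G)
    (h : RankOne G) {H : Subgroup G} (hH : IsCompact (H : Set G)) : RI C G H := by
  obtain ⟨Λ, K₁, K₂, hc, hfg, htf, hd, hΛ, h₁, h₂, hX₁, hX₂, ham⟩ := h
  exact ri_amalgam_central hG C hc hfg htf hd h₁ h₂ hΛ hX₁ hX₂ ham hH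

theorem result {p : ℕ} [Fact p.Prime] (C : Type) [Field C] [Finite C] [CharP C p]
    {ι : Type} [Fintype ι] (G' : ι → Type) [∀ i, Group (G' i)] [∀ i, TopologicalSpace (G' i)]
    [∀ i, IsTopologicalGroup (G' i)] (hG' : ∀ i, IsPadicLie p (G' i))
    (P : ∀ i, Subgroup (G' i)) (hP : ∀ i, IsCompact (P i : Set (G' i)))
    (h : ∀ i, RankOne (G' i) ∨ P i = ⊥ ∨ RI C (G' i) (P i))
    (G : Type) [Group G] [TopologicalSpace G] [IsTopologicalGroup G] (hG : IsPadicLie p G)
    (φ : (∀ i, G' i) →* G) (hφ : Continuous φ) (ho : IsOpenMap φ) (hfi : φ.range.index ≠ 0)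
    (hker : φ.ker ≤ Subgroup.pi Set.univ P)
    (H : Subgroup G) (hcl : IsClosed (H : Set G)) (hH : H ≤ (Subgroup.pi Set.univ P).map φ) :
    RI C G H := by
  have h1 : ∀ i, RI C (G' i) (P i) := by
    intro i
    rcases h i with h2 | h2 | h2
    · exact ri_rankOne C (hG' i) h2 (hP i)
    · rw [h2]
      exact ri_bot C (G' i)
    · exact h2
  have h3 : RI C (∀ i, G' i) (Subgroup.pi Set.univ P) := RI.pi hG' hP h1
  have h4 : IsCompact ((Subgroup.pi Set.univ P : Subgroup (∀ i, G' i)) : Set (∀ i, G' i)) := by
    rw [Subgroup.coe_pi]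
    exact isCompact_univ_pi hP
  have h5 : IsPadicLie p (∀ i, G' i) := padic_pi hG'
  have h6 : RI C G ((Subgroup.pi Set.univ P).map φ) :=
    RI.map_open hG h5 hφ ho hfi h4 hker h3
  have h7 : IsCompact (((Subgroup.pi Set.univ P).map φ : Subgroup G) : Set G) := by
    rw [Subgroup.coe_map]
    exact h4.image hφ
  exact RI.mono_closed hG h7 h6 hH hcl

end Pool.Agent.Results.MP_64e98e_al.RankOneFactors
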